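import Mathlib

namespace Pool.Agent.Results.MP_a8995d_an.Rec

open Filter Topology Polynomial Finset

/-- The space `ℓ²`. -/
noncomputable abbrev H := lp (fun _ : ℕ => ℂ) 2

/-- Bounded operators on `ℓ²`. -/
abbrev Op := H →L[ℂ] H

/-- An operator as a map. -/
noncomputable def app (T : Op) (x : H) : H := T x

/-- `T` is the backward shift with weights `w`. -/
def IsShift (w : ℕ → ℝ) (T : Op) : Prop := ∀ (x : H) (n : ℕ), app T x n = w (n + 1) * x (n + 1)

/-- Topological multiple recurrence. -/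
def MultRec {X : Type} [TopologicalSpace X] (S : X → X) : Prop :=
  ∀ U : Set X, IsOpen U → U.Nonempty → ∀ N ≥ 1, ∃ k ≥ 1, ∃ x, ∀ j ≤ N, S^[j * k] x ∈ U

lemma poly (N l : ℕ) : ∃ P : ℂ[X], ∀ j ≤ N, ∃ Q : ℂ[X], Q.eval (j : ℂ) = 1 ∧
    P = (X - C (j : ℂ)) ^ l * Q := by
  let r : ℕ → ℂ[X] := fun j => ∏ i ∈ (range (N + 1)).erase j, (X - C (i : ℂ)) ^ l
  refine ⟨(∏ i ∈ range (N + 1), (X - C (i : ℂ)) ^ l) * Lagrange.interpolate (range (N + 1))
    (fun i => (i : ℂ)) fun j => ((r j).eval (j : ℂ))⁻¹, fun j hj => ?_⟩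
  have hj' : j ∈ range (N + 1) := mem_range.2 (by omega)
  refine ⟨_, ?_, by rw [← mul_prod_erase _ _ hj', mul_assoc]⟩
  rw [eval_mul, Lagrange.eval_interpolate_at_node _ Nat.cast_injective.injOn hj']
  refine mul_inv_cancel₀ ?_
  simp only [eval_prod, eval_pow, eval_sub, eval_X, eval_C, prod_ne_zero_iff, mem_erase]
  exact fun i hi => pow_ne_zero _ (sub_ne_zero.2 (Nat.cast_injective.ne hi.1.symm))

theorem result (w : ℕ → ℝ) (hw : ∀ n, 0 < w n) (T : Op) (hT : IsShift w T) :
    MultRec fun x : H => x + app T x := by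
  replace hT : ∀ x n, T x n = w (n + 1) * x (n + 1) := hT
  have it : ∀ m x, (fun x : H => x + app T x)^[m] x = ((1 + T) ^ m) x := fun m x => by
    induction m with
    | zero => rfl
    | succ m ih =>
      rw [Function.iterate_succ_apply', ih, pow_succ']
      rfl
  intro U hU hne N _
  let W : ℕ → ℂ := fun i => ∏ n ∈ range i, (w (n + 1) : ℂ)
  have w0 : ∀ n, (w n : ℂ) ≠ 0 := fun n => by exact_mod_cast (hw n).ne'
  have W0 : ∀ i, W i ≠ 0 := fun i => prod_ne_zero_iff.2 fun n _ => w0 _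
  let Y : ℕ → (ℂ → ℂ) → ℂ → H := fun M q t =>
    ∑ i ∈ range M, ((fwdDiff 1)^[i] q t / W i) • lp.single 2 i (1 : ℂ)
  have Ya : ∀ M q t n, Y M q t n = if n < M then (fwdDiff 1)^[n] q t / W n else 0 :=
    fun M q t n => by
      simp only [Y]
      rw [lp.coeFn_sum, Finset.sum_apply]
      simp [lp.single_apply, Pi.single_apply]
  have st : ∀ M (q : ℂ[X]), q.natDegree < M → ∀ (m : ℕ) t,
      ((1 + T) ^ m) (Y M q.eval t) = Y M q.eval (t + m) := fun M q hq m => by
    induction m with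
    | zero => simp
    | succ m ih =>
      intro t
      rw [pow_succ', mul_apply_eq_comp, ih, Nat.cast_succ, ← add_assoc]
      refine lp.ext (funext fun n => ?_)
      change Y M q.eval (t + m) n + T (Y M q.eval (t + m)) n = _
      have e : W (n + 1) = W n * w (n + 1) := prod_range_succ _ _
      have e1 : (fwdDiff 1)^[n] q.eval (t + m + 1) =
          (fwdDiff 1)^[n] q.eval (t + m) + (fwdDiff 1)^[n + 1] q.eval (t + m) := by
        rw [Function.iterate_succ_apply', fwdDiff]
        ring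
      rw [hT, Ya, Ya, Ya, e, e1]
      have := w0 (n + 1)
      have := W0 n
      split_ifs with h1 h2 h2
      · field_simp
      · rw [fwdDiff_iter_eq_zero_of_degree_lt (by omega : q.natDegree < n + 1)]
        simp
      · omega
      · simp
  let G : Submodule ℂ H :=
    { carrier := {x | ∃ y : ℕ → H, ∀ j ≤ N, Tendsto (fun k => ((1 + T) ^ (j * k)) (y k)) atTop (𝓝 x)}
      add_mem' := fun ⟨y, hy⟩ ⟨z, hz⟩ => ⟨y + z, fun j hj => by
        simpa only [Pi.add_apply, map_add] using (hy j hj).add (hz j hj)⟩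
      zero_mem' := ⟨0, fun j _ => by simpa only [Pi.zero_apply, map_zero] using tendsto_const_nhds⟩
      smul_mem' := fun c _ ⟨y, hy⟩ => ⟨c • y, fun j hj => by
        simpa only [Pi.smul_apply, map_smul] using (hy j hj).const_smul c⟩ }
  have g1 : ∀ l, Y (l + 1) (fun u => u ^ l) 0 ∈ G := fun l => by
    obtain ⟨P, hP⟩ := poly N l
    have e : Y (l + 1) (fun u => u ^ l) 0 = Y (l + 1 + P.natDegree) (fun u => u ^ l) 0 :=
      lp.ext (funext fun n => by
        rw [Ya, Ya]
        split_ifs with h1 h2 h2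
        · rfl
        · omega
        · rw [fwdDiff_iter_pow_eq_zero_of_lt (by omega)]
          simp
        · rfl)
    let q : ℕ → ℂ[X] := fun k => C ((k : ℂ) ^ l) * P.comp (C (k : ℂ)⁻¹ * X)
    refine ⟨fun k => Y (l + 1 + P.natDegree) (q k).eval 0, fun j hj => ?_⟩
    obtain ⟨Q, q1, q2⟩ := hP j hj
    have dg : ∀ k, (q k).natDegree < l + 1 + P.natDegree := fun k => by
      have h1 : (C (k : ℂ)⁻¹ * X).natDegree ≤ 1 := by compute_degree
      have := (natDegree_C_mul_le ((k : ℂ) ^ l) _).trans (natDegree_comp_le.trans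
        (Nat.mul_le_mul_left P.natDegree h1))
      simp only [q]
      omega
    rw [e]
    simp only [st _ _ (dg _)]
    simp only [Y, fwdDiff_iter_eq_sum_shift]
    refine tendsto_finsetSum _ fun i _ => ((tendsto_finsetSum _ fun u _ =>
      Tendsto.const_smul ?_ _).div_const _).smul_const _
    have h1 : Tendsto (fun k : ℕ => ((0 + u • 1) ^ l * Q.eval (j + (k : ℂ)⁻¹ * u) : ℂ)) atTop
        (𝓝 ((0 + u • 1) ^ l * Q.eval (j + 0 * u : ℂ))) :=
      ((Q.continuous.tendsto _).comp (((tendsto_inv_atTop_nhds_zero_nat (𝕜 := ℂ)).mul_const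
        _).const_add _)).const_mul _
    rw [zero_mul, add_zero, q1, mul_one] at h1
    refine h1.congr' ?_
    filter_upwards [eventually_ne_atTop 0] with k hk
    have k0 : (k : ℂ) ≠ 0 := by exact_mod_cast hk
    have e2 : (k : ℂ)⁻¹ * (0 + (j * k : ℕ) + u • 1) = j + (k : ℂ)⁻¹ * u := by
      simp only [nsmul_eq_mul]
      push_cast
      field_simp
      ring
    simp only [q, eval_mul, eval_C, eval_comp, eval_X, e2, q2, eval_pow, eval_sub]
    rw [← mul_assoc, ← mul_pow]
    simp [k0]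
  have g2 : ∀ l, lp.single 2 l (1 : ℂ) ∈ G := fun l => by
    induction l using Nat.strong_induction_on with
    | _ l ih =>
      have := g1 l
      simp only [Y, sum_range_succ] at this
      refine (G.smul_mem_iff ?_).1 ((G.add_mem_iff_right (G.sum_mem fun i hi =>
        G.smul_mem _ (ih i (mem_range.1 hi)))).1 this)
      rw [fwdDiff_iter_eq_factorial]
      exact div_ne_zero (by simpa using l.factorial_ne_zero) (W0 l)
  obtain ⟨x, hx⟩ := hne
  obtain ⟨s, hs⟩ := ((lp.hasSum_single (by simp) x).eventually (hU.mem_nhds hx)).exists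
  obtain ⟨y, hy⟩ : ∑ i ∈ s, lp.single 2 i (x i) ∈ G := G.sum_mem fun i _ => by
    simpa [← lp.single_smul] using G.smul_mem (x i) (g2 i)
  obtain ⟨k, h1, h2⟩ := (((eventually_all_finset (range (N + 1))).2 fun j hj =>
    (hy j (Nat.lt_succ_iff.1 (mem_range.1 hj))).eventually (hU.mem_nhds hs)).and
    (eventually_ge_atTop 1)).exists
  exact ⟨k, h2, y k, fun j hj => it _ _ ▸ h1 j (mem_range.2 (by omega))⟩

end Pool.Agent.Results.MP_a8995d_an.Rec
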